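import Pool.Agent.N892.MA.Rp
import Pool.Agent.N892.MA.Crv
import Pool.Agent.TH966.DP.Fin
import Pool.Agent.Results.MP_b3e76a_pr.AllAffineCopies

/-!
# All smooth functions preserve the dimensions of all sets of double points of the interface

Critical bond percolation on `δ ℤ²` (the random-cluster model with `q = 1`) in a rectangle
`D = (-A, B) × (0, H)`, with the counterclockwise boundary arc from `a = t + i H` to `b = 0` wired
and the other one dual-wired. `Rect.law` is the law of the exploration path (interface) from `a` to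
`b`, as a curve with constant speed, and of its natural time. Weak limits exist along a subsequence
of every sequence of meshes. `doublePoints f` is the set of the points which `f` visits at least
twice.

For every weak limit:
* almost surely, simultaneously for ALL real functions `g` of class `C^(1,α)` without critical
  points (on any set `U`, for any `α > 0`, which may depend on the point) and for ALL sets `E` of
  double points in `D ∩ U`, the Hausdorff dimension of `g(E)` is that of `E`, and the packing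
  dimension of `g(E)` is that of `E`. In particular the level sets of all these functions meet the
  double points in sets of dimension zero, and the image of the set of the double points in `D`
  near `b` has dimension `3/4` for all `g`.
* almost surely, ALL curves of class `C^(1,α)` with non-vanishing derivative meet the double points
  in `D` in a set of Hausdorff and packing dimension zero.
* for every set `S` which is regular with exponent `a` (`Reg`: quasi-Assouad dimension at most `a`,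
  uniformly in space), almost surely, simultaneously for ALL maps `φ` of the plane of class
  `C^(1,α)` with invertible derivative, the set of the double points in `φ(S)` inside `D` has
  Hausdorff and packing dimension at most `max (a - 5/4) 0`.
* for two independent limits (in two rectangles, along two sequences of meshes), almost surely, for
  ALL maps `φ` of class `C^(1,α)` with invertible derivative, the double points of the first path
  which lie on the image of the second path have dimension at most `1/2`, and the images of the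
  double points of the second path meet the double points of the first one in a set of dimension
  zero.

Definitions: `HolderC1` in `Pool.Agent.N892.MA.Cal`, `Reg` in `Pool.Agent.N892.AC.Aff`, `IsLimit` in
`Pool.Agent.N892.AC.Ae`, `packDim` (with `upperBoxDim`, `CovBy`) in `Pool.Agent.N892.UP.Defs`; for
the exploration path, `Pool.Agent.H984R4.NP.Model` (`Rect`, `pos`, `clamp`, `pl`, `X`, `Rect.D`,
`Rect.dm`, `Rect.curve`, `Rect.time`, `Rect.law`), `Pool.Agent.H984R4.NP.Defs` (`Dm`, `Dm.edges`,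
`Dm.wir`, `Dm.cfg`, `Dm.walk`, `Dm.len`) and `Pool.Agent.H984R3.Per.Defs` (states, `ae`, `mv`, `rt`,
`nxt`, `orb`).

The proof (`Pool.Agent.N892.MA`): `k`-point bounds for all `k` for four arms (`A`, `B`), passage to
the limit (`E`), a moment inequality (`C`) and a union bound over nets of the family of the affine
copies of `S` at all scales (`D`), which counts the double points near ALL these copies; smooth
sets are close to affine ones at the scales `r` and `r ^ (1 / (1 + α))`, and an iteration over these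
super-exponential scales (`Iter`) gives the dimensions. Used from the starting files: the sharp
four-arm bounds and the deterministic part for double points.
-/

set_option autoImplicit false

namespace Pool.Agent.Results.MP_6c8efb_pr.DoublePointsSmoothMaps

open H984N MeasureTheory Filter Topology Set
open Pool.Agent.N892.MA
open Pool.Agent.N892.AC (Reg IsLimit)
open Pool.Agent.N892.UP (packDim)
open scoped ENNReal NNReal

/-- The points which a curve visits at least twice. -/
def doublePoints (f : C(unitInterval, ℂ)) : Set ℂ :=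
  {z | ∃ s t : unitInterval, s < t ∧ f s = z ∧ f t = z}

/-- All functions of class `C^(1,α)` without critical points preserve the Hausdorff and the packing
dimensions of all subsets of `P ∩ D` (in the domain `U` of the function). -/
def Preserved (P D : Set ℂ) : Prop :=
  ∀ (U : Set ℂ) (g : ℂ → ℝ), HolderC1 g U → (∀ x ∈ U, fderiv ℝ g x ≠ 0) →
    ∀ E ⊆ P ∩ D ∩ U, dimH (g '' E) = dimH E ∧ packDim (g '' E) = packDim E

/-- All curves of class `C^(1,α)` with non-vanishing derivative meet `P ∩ D` in a set of Hausdorff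
and packing dimension zero. -/
def Curves (P D : Set ℂ) : Prop :=
  ∀ (J : Set ℝ) (γ : ℝ → ℂ), HolderC1 γ J → (∀ t ∈ J, deriv γ t ≠ 0) →
    dimH (P ∩ D ∩ γ '' J) = 0 ∧ packDim (P ∩ D ∩ γ '' J) = 0

/-- The Hausdorff and the packing dimensions of the intersections of `P ∩ D` with the images of `S`
under all maps of class `C^(1,α)` with invertible derivative are at most `b`. -/
def Images (P D S : Set ℂ) (b : ℝ) : Prop :=
  ∀ (U : Set ℂ) (φ : ℂ → ℂ), HolderC1 φ U → (∀ x ∈ U, Function.Injective (fderiv ℝ φ x)) →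
    dimH (P ∩ D ∩ φ '' (S ∩ U)) ≤ ENNReal.ofReal b ∧
    packDim (P ∩ D ∩ φ '' (S ∩ U)) ≤ ENNReal.ofReal b

theorem preserved_of {P T D : Set ℂ} (h : FunBd T D 0) (hP : P ⊆ T) : Preserved P D := by
  intro U g hg hreg E hE
  obtain ⟨⟨h1, h2⟩, h3, h4⟩ := h U g hg hreg E
    fun z hz => ⟨⟨hP (hE hz).1.1, (hE hz).2⟩, (hE hz).1.2⟩
  rw [ENNReal.ofReal_zero, add_zero] at h2 h4
  exact ⟨le_antisymm h1 h2, le_antisymm h3 h4⟩

theorem images_of {P T D S : Set ℂ} {b : ℝ} (h : CopBd T D S b) (hP : P ⊆ T) : Images P D S b :=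
  h.mono hP (Subset.refl _)

theorem curves_of {P T D : Set ℂ} (h : CopBd T D (Pool.Agent.N892.AC.ln 1 0) 0) (hP : P ⊆ T) :
    Curves P D := by
  intro J γ hγ hreg
  obtain ⟨h1, h2⟩ := crvBd_of (h.mono hP (Subset.refl _)) J γ hγ hreg
  rw [ENNReal.ofReal_zero] at h1 h2
  exact ⟨le_antisymm h1 zero_le, le_antisymm h2 zero_le⟩

/-- The double points are points with excursions. -/
theorem dbl_ae {R : Rect} {δ : ℕ → ℝ} (hδ : ∀ i, 0 < δ i) (hlim : Tendsto δ atTop (𝓝 0))
    {μ : ProbabilityMeasure X} (hμ : Tendsto (fun i => R.law (δ i)) atTop (𝓝 μ)) :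
    ∀ᵐ p ∂(μ : Measure X), doublePoints p.1 ⊆ ⋃ n : ℕ, W92.DP.DPt (1 / ((n:ℝ) + 1)) p.1 := by
  filter_upwards [(MP_fe58d8_pr.NaturalCurve.result R).2.2.2 δ hδ hlim μ hμ] with p hq
  obtain ⟨-, -, -, -, hdim, -⟩ := hq
  exact Pool.Agent.TH966.DP.dbl_sub hdim

theorem three_quarters {R : Rect} {δ : ℕ → ℝ} (hδ : ∀ i, 0 < δ i) (hlim : Tendsto δ atTop (𝓝 0))
    {μ : ProbabilityMeasure X} (hμ : Tendsto (fun i => R.law (δ i)) atTop (𝓝 μ)) :
    ∀ᵐ p ∂(μ : Measure X), ∀ ρ : ℝ, 0 < ρ →
      dimH (doublePoints p.1 ∩ R.D ∩ Metric.ball 0 ρ) = 3 / 4 := by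
  filter_upwards [dbl_ae hδ hlim hμ, Pool.Agent.TH966.DP.upper R hδ hlim hμ,
    Pool.Agent.TH966.DP.lower R hδ hlim hμ] with p hd hup hlo ρ hρ
  refine le_antisymm ?_ ?_
  · have h3 : doublePoints p.1 ∩ R.D ∩ Metric.ball 0 ρ ⊆
        ⋃ n : ℕ, (W92.DP.DPt (1 / ((n : ℝ) + 1)) p.1 ∩ R.D) := by
      rintro z ⟨⟨hz, hzD⟩, -⟩
      obtain ⟨n, hn⟩ := mem_iUnion.1 (hd hz)
      exact mem_iUnion.2 ⟨n, hn, hzD⟩
    refine (dimH_mono h3).trans ?_
    rw [dimH_iUnion]
    exact iSup_le hup
  · obtain ⟨k, hk⟩ := exists_nat_one_div_lt hρ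
    apply Pool.Agent.TH966.DP.three_quarters_le
    intro n
    refine (hlo n k).trans (dimH_mono ?_)
    rintro z ⟨hzD, hz1, η, hη, hz2⟩
    exact ⟨⟨Pool.Agent.TH966.DP.DPt_sub_dbl hη p.1 hz2, hzD⟩, Metric.mem_ball.2 (hz1.trans hk)⟩

theorem dep_cover {D : Set ℂ} (hD : IsOpen D) : D ⊆ ⋃ k : ℕ, DepD D (1 / ((k:ℝ) + 1)) := by
  intro z hz
  obtain ⟨ε, hε, h⟩ := Metric.isOpen_iff.1 hD z hz
  obtain ⟨k, hk⟩ := exists_nat_one_div_lt hε
  exact mem_iUnion.2 ⟨k, (Metric.closedBall_subset_ball hk).trans h⟩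

theorem result (R : Rect) :
    (∀ δ : ℕ → ℝ, (∀ i, 0 < δ i) → Tendsto δ atTop (𝓝 0) →
      ∃ φ : ℕ → ℕ, StrictMono φ ∧ ∃ μ : ProbabilityMeasure X,
        Tendsto (fun i => R.law (δ (φ i))) atTop (𝓝 μ)) ∧
    ∀ μ : ProbabilityMeasure X, IsLimit R μ →
      (∀ᵐ p ∂(μ : Measure X), Preserved (doublePoints p.1) R.D ∧ Curves (doublePoints p.1) R.D ∧
        ∀ (U : Set ℂ) (g : ℂ → ℝ), HolderC1 g U → (∀ x ∈ U, fderiv ℝ g x ≠ 0) → R.D ⊆ U →
          ∀ ρ : ℝ, 0 < ρ →
            dimH (g '' (doublePoints p.1 ∩ R.D ∩ Metric.ball 0 ρ)) = 3 / 4) ∧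
      (∀ (S : Set ℂ) (a : ℝ), 0 < a → a ≤ 2 → Reg S a →
        ∀ᵐ p ∂(μ : Measure X), Images (doublePoints p.1) R.D S (max (a - 5/4) 0)) ∧
      (∀ (R' : Rect) (μ' : ProbabilityMeasure X), IsLimit R' μ' →
        ∀ᵐ q ∂(μ' : Measure X), ∀ᵐ p ∂(μ : Measure X),
          Images (doublePoints p.1) R.D (range q.1) (1/2) ∧
          Images (doublePoints p.1) R.D (doublePoints q.1 ∩ R'.D) 0) := by
  obtain ⟨h1, h2⟩ := MP_b3e76a_pr.AllAffineCopies.result R
  refine ⟨h1, fun μ hμ' => ?_⟩
  have hmu := hμ'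
  obtain ⟨δ, hδ, hlim, hμ⟩ := hμ'
  obtain ⟨a1, a2, a3⟩ := all4 R hδ hlim hμ
  have hcop : ∀ (S : Set ℂ) (a : ℝ), 0 < a → a ≤ 2 → Reg S a →
      ∀ᵐ p ∂(μ : Measure X), Images (doublePoints p.1) R.D S (max (a - 5/4) 0) := by
    intro S a ha ha2 hS
    filter_upwards [a2 S a ha ha2 hS, dbl_ae hδ hlim hμ] with p hp hd
    exact images_of hp hd
  refine ⟨?_, hcop, ?_⟩
  · have hax := a2 (Pool.Agent.N892.AC.ln 1 0) 1 one_pos (by norm_num) Pool.Agent.N892.AC.axis_reg
    have e0 : max ((1:ℝ) - 5/4) 0 = 0 := by norm_num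
    rw [e0] at hax
    filter_upwards [a1, hax, dbl_ae hδ hlim hμ, three_quarters hδ hlim hμ] with p hp hx hd h34
    have hpres := preserved_of hp hd
    refine ⟨hpres, curves_of hx hd, fun U g hg hreg hU ρ hρ => ?_⟩
    rw [(hpres U g hg hreg _ fun z hz => ⟨hz.1, hU hz.1.2⟩).1]
    exact h34 ρ hρ
  · rintro R' μ' hμ'
    have hq := (h2 μ hmu).2.1 R' μ' hμ'
    obtain ⟨δ', hδ', hlim', hμ''⟩ := hμ'
    obtain ⟨-, -, b3⟩ := all4 R' hδ' hlim' hμ''
    filter_upwards [hq, b3, dbl_ae hδ' hlim' hμ''] with q q1 q2 q3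
    have e1 : max ((7:ℝ) / 4 - 5/4) 0 = 1/2 := by norm_num
    have e2 : max ((3:ℝ) / 4 - 5/4) 0 = 0 := by norm_num
    have c1 := hcop (range q.1) (7/4) (by norm_num) (by norm_num) q1.1
    rw [e1] at c1
    have c2 : ∀ᵐ p ∂(μ : Measure X), ∀ n k : ℕ, Images (doublePoints p.1) R.D
        (W92.DP.DPt (1 / ((n:ℝ) + 1)) q.1 ∩ DepD R'.D (1 / ((k:ℝ) + 1))) 0 := by
      rw [ae_all_iff]; intro n
      rw [ae_all_iff]; intro k
      have := hcop _ (3/4) (by norm_num) (by norm_num) (q2 n k)
      rwa [e2] at this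
    filter_upwards [c1, c2] with p p1 p2
    refine ⟨p1, ?_⟩
    have h3 : CopBd (doublePoints p.1) R.D (⋃ n : ℕ, ⋃ k : ℕ,
        W92.DP.DPt (1 / ((n:ℝ) + 1)) q.1 ∩ DepD R'.D (1 / ((k:ℝ) + 1))) 0 :=
      CopBd.iUnion' fun n => CopBd.iUnion' fun k => p2 n k
    refine h3.mono (Subset.refl _) ?_
    rintro z ⟨hz, hzD⟩
    obtain ⟨n, hn⟩ := mem_iUnion.1 (q3 hz)
    obtain ⟨k, hk⟩ := mem_iUnion.1 (dep_cover (Pool.Agent.TH990.FU.D_open R') hzD)
    exact mem_iUnion.2 ⟨n, mem_iUnion.2 ⟨k, hn, hk⟩⟩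

end Pool.Agent.Results.MP_6c8efb_pr.DoublePointsSmoothMaps
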