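import Pool.Agent.N931.AS.Cardy

/-!
Critical bond percolation on `ℤ²` (`p = 1/2`): the exploration path in the plane slit along a half
line, started at the tip of the slit (left bank open, right bank dual-open). Almost sure version of
Cardy's formula for its exit sides.

Coordinates: the vertex `(u,v)` of `ℤ²` sits at `X + iY`, `X = u - v`, `Y = u + v` (rotation by 45
degrees). The column of a point is `X = u - v`, its height `Y = u + v`.
-/

namespace Pool.Agent.Results.MP_6c8efb_pr.AlmostSureCardy

open MeasureTheory Filter Topology Set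

/-- edges of `ℤ²`: `(u,v,false)` joins `(u,v)` and `(u+1,v)`; `(u,v,true)` joins `(u,v)` and
`(u,v+1)`. -/
abbrev Edge := ℤ × ℤ × Bool

/-- configurations (`true` = open) -/
abbrev Conf := Edge → Bool

/-- `x` and `y` are the two ends of an open edge -/
def OpenAdj (ω : Conf) (x y : ℤ × ℤ) : Prop :=
  (y = (x.1 + 1, x.2) ∧ ω (x.1, x.2, false) = true) ∨
  (x = (y.1 + 1, y.2) ∧ ω (y.1, y.2, false) = true) ∨
  (y = (x.1, x.2 + 1) ∧ ω (x.1, x.2, true) = true) ∨
  (x = (y.1, y.2 + 1) ∧ ω (y.1, y.2, true) = true)

/-- bond percolation at `p = 1/2`: independent fair coins on the edges -/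
noncomputable def perc : Measure Conf :=
  Measure.infinitePi (fun _ : Edge => (PMF.uniformOfFintype Bool).toMeasure)

/-! ## The exploration path -/

/-- A state `(x, d)` of the exploration path: the path passes next to the vertex `x`, which is on
its right, and looks at the edge which leaves `x` in the direction `d`. -/
abbrev State := (ℤ × ℤ) × Fin 4

/-- the four directions, counterclockwise: `0` = right, `1` = up, `2` = left, `3` = down -/
def vec (d : Fin 4) : ℤ × ℤ :=
  match d with
  | 0 => (1, 0)
  | 1 => (0, 1)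
  | 2 => (-1, 0)
  | 3 => (0, -1)

/-- the left bank of the slit: the vertices `(k,k)`, `k ≥ 0` (column `0`, height `≥ 0`) -/
def LeftBank (x : ℤ × ℤ) : Prop := x.1 = x.2 ∧ 0 ≤ x.1

/-- the edges which cross the slit: those between the columns `0` and `1` both ends of which have
height `≥ 0`. They cannot be used: the right bank of the slit is dual-open. -/
def Cut (x y : ℤ × ℤ) : Prop :=
  0 ≤ x.1 + x.2 ∧ 0 ≤ y.1 + y.2 ∧
    ((x.1 - x.2 ≤ 0 ∧ 0 < y.1 - y.2) ∨ (y.1 - y.2 ≤ 0 ∧ 0 < x.1 - x.2))

open Classical in
/-- One step of the exploration path in the configuration `ω`: if the edge it looks at is open and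
does not cross the slit, the path goes along this edge and turns counterclockwise (`d + 1`);
otherwise it turns clockwise around the vertex (`d + 3 = d - 1`). The left bank is open: at a vertex
of the left bank, when the path looks at the slit (`d = 0`), it goes on to the next vertex
`x + (1,1)` of the left bank. -/
noncomputable def step (ω : Conf) (s : State) : State :=
  if LeftBank s.1 ∧ s.2 = 0 then (s.1 + (1, 1), 2)
  else if OpenAdj ω s.1 (s.1 + vec s.2) ∧ ¬ Cut s.1 (s.1 + vec s.2) then
    (s.1 + vec s.2, s.2 + 1)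
  else (s.1, s.2 + 3)

/-- the exploration path: it starts at the tip, at the lowest vertex `(0,0)` of the left bank,
looking down -/
noncomputable def path (ω : Conf) (n : ℕ) : State := (step ω)^[n] ((0, 0), 3)

/-- the column of the vertex on the right of the path -/
def rightCol (s : State) : ℤ := s.1.1 - s.1.2

/-- the column of the dual vertex (centre of a face) on the left of the path, which is
`x + (1/2,1/2)`, `x + (-1/2,1/2)`, `x + (-1/2,-1/2)`, `x + (1/2,-1/2)` for `d = 0, 1, 2, 3` -/
def leftCol (s : State) : ℤ :=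
  match s.2 with
  | 0 => s.1.1 - s.1.2
  | 1 => s.1.1 - s.1.2 - 1
  | 2 => s.1.1 - s.1.2
  | 3 => s.1.1 - s.1.2 + 1

/-- the path reaches the column `b+1` (with its right side) before it reaches the column `-a` (with
its left side) -/
def RightFirst (a b : ℕ) : Set Conf :=
  {ω | ∃ n, (b : ℤ) + 1 ≤ rightCol (path ω n) ∧ ∀ m ≤ n, -(a : ℤ) < leftCol (path ω m)}

/-- Cardy's function: the normalised primitive of `(t(1-t))^(-2/3)` -/
noncomputable def cardy (x : ℝ) : ℝ :=
  (∫ t in (0:ℝ)..x, (t*(1-t))^(-(2:ℝ)/3)) / ∫ t in (0:ℝ)..1, (t*(1-t))^(-(2:ℝ)/3)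

/-- (1) Decorrelation: for odd `a, b, a', b'` the covariance of the exit sides of the strips
`(-a, b+1)` and `(-a', b'+1)` is at most `C (a/b')^γ`.
(2) Almost surely, for all `α, β > 0` at once, the logarithmic average over the scales `n ≤ N` of
the indicator of the event that the path leaves the strip `(-⌈αn⌉, ⌈βn⌉+1)` on the right converges,
as `N → ∞`, to `cardy (α/(α+β))`, the probability that SLE(6) leaves the strip `(-α, β)` on the
right. -/
theorem result :
    (∃ C γ : ℝ, 0 < C ∧ 0 < γ ∧ ∀ a b a' b' : ℕ, Odd a → Odd b → Odd a' → Odd b' →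
      |perc.real (RightFirst a b ∩ RightFirst a' b') -
        perc.real (RightFirst a b) * perc.real (RightFirst a' b')| ≤ C * ((a : ℝ) / b') ^ γ) ∧
    ∀ᵐ ω ∂perc, ∀ α β : ℝ, 0 < α → 0 < β →
      Tendsto (fun N : ℕ => (∑ n ∈ Finset.Icc 1 N, (n : ℝ)⁻¹ *
        (RightFirst ⌈α * n⌉₊ ⌈β * n⌉₊).indicator (fun _ => (1 : ℝ)) ω) / Real.log N) atTop
        (𝓝 (cardy (α / (α + β)))) := by
  obtain ⟨C, γ, hC, hγ, -, h⟩ := Pool.Agent.N931.AS.rf_decor
  exact ⟨⟨C, γ, hC, hγ, h⟩, Pool.Agent.N931.AS.all_avg⟩

end Pool.Agent.Results.MP_6c8efb_pr.AlmostSureCardy
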