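import Pool.Agent.N948.IX.Lim
import Pool.Agent.N948.IX.Fin5
import Pool.Agent.Results.MP_6c8efb_pr.Displacement
import Pool.Agent.Results.MP_6c8efb_pr.UniformDimension

/-!
# Local cut points of the half-plane exploration path of critical bond percolation

Critical bond percolation on `ℤ × ℕ`, the edges `[x, x + 1]` of the real axis open for `x < 0` and
closed for `x ≥ 0`. The exploration path starts next to the origin and keeps the open cluster `C_-`
of the negative half-axis on its left; `gam ω k` is its point after `k` steps, and `curve n ω` is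
the path `n ^ (-4/7) γ(n t)`, `0 ≤ t ≤ 1`, with law `lawH n`. Weak limits exist along a subsequence of
every sequence `n → ∞`.

A local cut point of a curve `f` is a point `f t` such that the piece of `f` just before `t` and the
piece just after `t` are disjoint.

For every weak limit, almost surely, simultaneously for all `t > 0` and all `r > 0`, the local cut
points of the curve up to time `t` in the open half-disc of radius `r` form a set of dimension exactly
`3/4`, and the times at which the curve is at such a point form a set of dimension exactly `3/7`.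
For every fixed set `T` (no measurability is assumed), almost surely the local cut points in
`T ∩ upperHalf` form a set of dimension at most `dimH T - 5/4`, and there are none if the
`5/4`-dimensional Hausdorff measure of `T` is zero.

Definitions: `Pool.Agent.H984R4.HN.HPDefs` (`Conf`, `perc`, `opn`, `step`, `path`, `place`, `gam`,
`curve`), `Pool.Agent.H984R4.HN.FinalH` (`lawH`), `Pool.Agent.H984R4.NP.Model` (`pl`, `clamp`).

New: project IX and project XD (`Pool.Agent.N948.IX`).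
-/

set_option autoImplicit false

namespace Pool.Agent.Results.MP_6c8efb_pr.LocalCutPoints

open H984H MeasureTheory Filter Topology
open scoped ENNReal NNReal

/-- The open upper half-plane. -/
def upperHalf : Set ℂ := {w | 0 < w.im}

/-- The local cut points of a curve: the points `f t` such that for some `s < t < u` the pieces
`f [s, t)` and `f (t, u]` are disjoint. -/
def localCutPoints (f : C(unitInterval, ℂ)) : Set ℂ :=
  {z | ∃ s t u : unitInterval, s < t ∧ t < u ∧ f t = z ∧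
    Disjoint (f '' Set.Ico s t) (f '' Set.Ioc t u)}

/-- The times at which `f` is in `S`. -/
def times (f : C(unitInterval, ℂ)) (S : Set ℂ) : Set unitInterval := {s | f s ∈ S}

theorem ofR (a b : ℝ) (hb : 0 < b) : ENNReal.ofReal (a / b) = ENNReal.ofReal a / ENNReal.ofReal b :=
  ENNReal.ofReal_div_of_pos hb

theorem e54 : ENNReal.ofReal (5 / 4) = 5 / 4 := by
  rw [ofR _ _ (by norm_num)]; norm_num

theorem solve {x y : ℝ≥0∞} (h : 7 / 4 * x ≤ y) : x ≤ 4 / 7 * y := by
  have e2 : (4 / 7 : ℝ≥0∞) * (7 / 4) = 1 := by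
    have a1 : (4 / 7 : ℝ≥0∞) = ENNReal.ofReal (4 / 7) := by
      rw [ofR _ _ (by norm_num)]; norm_num
    have a2 : (7 / 4 : ℝ≥0∞) = ENNReal.ofReal (7 / 4) := by
      rw [ofR _ _ (by norm_num)]; norm_num
    rw [a1, a2, ← ENNReal.ofReal_mul (by norm_num)]
    norm_num
  calc x = 4 / 7 * (7 / 4 * x) := by rw [← mul_assoc, e2, one_mul]
    _ ≤ 4 / 7 * y := by gcongr

theorem lip_null {K : ℝ≥0} {f : ℝ → ℂ} (hf : LipschitzWith K f) : μH[5 / 4] (Set.range f) = 0 := by
  have h1 : dimH (Set.range f) ≤ 1 := by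
    have h := hf.dimH_range_le
    rwa [Real.dimH_univ] at h
  have h2 : dimH (Set.range f) < ((5 / 4 : ℝ≥0) : ℝ≥0∞) := by
    refine lt_of_le_of_lt h1 ?_
    rw [← ENNReal.coe_one, ENNReal.coe_lt_coe]
    norm_num
  have h3 := hausdorffMeasure_of_dimH_lt h2
  have e : (((5 / 4 : ℝ≥0) : ℝ)) = 5 / 4 := by push_cast; ring
  rwa [e] at h3

theorem e34' : (2 : ℝ≥0∞) - 5 / 4 = 3 / 4 := by
  rw [← e54, show (2 : ℝ≥0∞) = ENNReal.ofReal 2 by norm_num, ← ENNReal.ofReal_sub _ (by norm_num),
    show (2 : ℝ) - 5 / 4 = 3 / 4 by norm_num, ofR _ _ (by norm_num)]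
  norm_num

theorem e37 : (4 / 7 : ℝ≥0∞) * (3 / 4) = 3 / 7 := by
  rw [show (4 / 7 : ℝ≥0∞) = ENNReal.ofReal (4 / 7) by rw [ofR _ _ (by norm_num)]; norm_num,
    show (3 / 4 : ℝ≥0∞) = ENNReal.ofReal (3 / 4) by rw [ofR _ _ (by norm_num)]; norm_num,
    ← ENNReal.ofReal_mul (by norm_num), show (4 / 7 * (3 / 4) : ℝ) = 3 / 7 by norm_num,
    ofR _ _ (by norm_num)]
  norm_num

theorem dimC : dimH (Set.univ : Set ℂ) = 2 := by
  rw [Real.dimH_univ_eq_finrank ℂ, Complex.finrank_real_complex]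
  norm_num

/-- A curve all of whose pieces have dimension `7/4` is not constant on intervals. -/
theorem nonconst {f : C(unitInterval, ℂ)} (hf : ∀ s t : unitInterval, s < t →
    dimH (f '' Set.Icc s t) = 7 / 4) (s t : unitInterval) (hst : s < t) :
    ∃ u ∈ Set.Icc s t, f u ≠ f s := by
  by_contra hcon
  push Not at hcon
  have h4 : f '' Set.Icc s t ⊆ {f s} := by
    rintro w ⟨u, hu, rfl⟩
    exact hcon u hu
  have h5 := dimH_mono h4
  rw [hf s t hst, dimH_singleton] at h5
  exact absurd h5 (not_le.2 (ENNReal.div_pos (by norm_num) (by norm_num)))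

/-- The local cut points up to time `t` in the open half-disc of radius `r` around the origin. -/
def cutPoints (f : C(unitInterval, ℂ)) (t : unitInterval) (r : ℝ) : Set ℂ :=
  {z | 0 < z.im ∧ ‖z‖ < r ∧ ∃ s u v : unitInterval, s < u ∧ u < v ∧ v ≤ t ∧ f u = z ∧
    Disjoint (f '' Set.Ico s u) (f '' Set.Ioc u v)}

/-- The times up to `t` at which `f` is in `S`. -/
def timesUpTo (f : C(unitInterval, ℂ)) (t : unitInterval) (S : Set ℂ) : Set unitInterval :=
  {s | s ≤ t ∧ f s ∈ S}

theorem times_dim {f : C(unitInterval, ℂ)} (hu : ∀ E : Set unitInterval,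
    dimH (f '' E) = 7 / 4 * dimH E) {t : unitInterval} {S : Set ℂ}
    (hS : ∀ z ∈ S, ∃ s : unitInterval, s ≤ t ∧ f s = z) (h : dimH S = 3 / 4) :
    dimH (timesUpTo f t S) = 3 / 7 := by
  have e : f '' (timesUpTo f t S) = S := by
    ext z
    constructor
    · rintro ⟨s, ⟨-, hs⟩, rfl⟩
      exact hs
    · intro hz
      obtain ⟨s, hs, rfl⟩ := hS z hz
      exact ⟨s, ⟨hs, hz⟩, rfl⟩
  have h4 := hu (timesUpTo f t S)
  rw [e, h] at h4
  have a1 : (4 / 7 : ℝ≥0∞) = ENNReal.ofReal (4 / 7) := by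
    rw [ENNReal.ofReal_div_of_pos (by norm_num)]; norm_num
  have a2 : (7 / 4 : ℝ≥0∞) = ENNReal.ofReal (7 / 4) := by
    rw [ENNReal.ofReal_div_of_pos (by norm_num)]; norm_num
  have e2 : (4 / 7 : ℝ≥0∞) * (7 / 4) = 1 := by
    rw [a1, a2, ← ENNReal.ofReal_mul (by norm_num)]
    norm_num
  calc dimH (timesUpTo f t S) = 4 / 7 * (7 / 4 * dimH (timesUpTo f t S)) := by
        rw [← mul_assoc, e2, one_mul]
    _ = 4 / 7 * (3 / 4) := by rw [← h4]
    _ = 3 / 7 := e37

theorem result :
    (∀ φ : ℕ → ℕ, Tendsto φ atTop atTop → ∃ ψ : ℕ → ℕ, StrictMono ψ ∧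
      ∃ μ : ProbabilityMeasure C(unitInterval, ℂ),
        Tendsto (fun i => lawH (φ (ψ i))) atTop (𝓝 μ)) ∧
    (∀ φ : ℕ → ℕ, Tendsto φ atTop atTop → ∀ μ : ProbabilityMeasure C(unitInterval, ℂ),
      Tendsto (fun i => lawH (φ i)) atTop (𝓝 μ) →
      (∀ᵐ f : C(unitInterval, ℂ) ∂(μ : Measure C(unitInterval, ℂ)),
        ∀ t : unitInterval, 0 < t → ∀ r : ℝ, 0 < r →
          dimH (cutPoints f t r) = 3 / 4 ∧ dimH (timesUpTo f t (cutPoints f t r)) = 3 / 7) ∧
      (∀ T : Set ℂ, ∀ᵐ f : C(unitInterval, ℂ) ∂(μ : Measure C(unitInterval, ℂ)),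
        dimH (localCutPoints f ∩ T ∩ upperHalf) ≤ dimH T - 5 / 4 ∧
        (μH[5 / 4] T = 0 → localCutPoints f ∩ T ∩ upperHalf = ∅))) := by
  refine ⟨UniformDimension.result.1, fun φ hφ μ hμ => ?_⟩
  have key : ∀ T : Set ℂ, ∀ᵐ f : C(unitInterval, ℂ) ∂(μ : Measure C(unitInterval, ℂ)),
        dimH (localCutPoints f ∩ T ∩ upperHalf) ≤ dimH T - 5 / 4 ∧
        (μH[5 / 4] T = 0 → localCutPoints f ∩ T ∩ upperHalf = ∅) := by
    intro T
    filter_upwards [Displacement.result.2.2.2.2.2 φ hφ μ hμ,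
      Pool.Agent.N948.IX.lim Pool.Agent.N948.IX.hioUp φ hφ μ hμ T] with f hq hc
    obtain ⟨-, -, -, hdim, -⟩ := hq
    obtain ⟨h1, h2⟩ := hc (nonconst hdim)
    rw [e54] at h1
    exact ⟨h1, h2⟩
  refine ⟨?_, key⟩
  filter_upwards [UniformDimension.result.2 φ hφ μ hμ, key Set.univ,
    Pool.Agent.N948.IX.hlim5 φ hφ μ hμ] with f hu hup hlo t ht r hr
  have hd : dimH (cutPoints f t r) = 3 / 4 := by
    refine le_antisymm ?_ (hlo t ht r hr)
    have h3 := hup.1
    rw [dimC, e34', Set.inter_univ] at h3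
    refine (dimH_mono ?_).trans h3
    rintro z ⟨h4, -, s, u, v, h5, h6, -, h7, h8⟩
    exact ⟨⟨s, u, v, h5, h6, h7, h8⟩, h4⟩
  refine ⟨hd, times_dim hu ?_ hd⟩
  rintro z ⟨-, -, s, u, v, -, h6, h7, h8, -⟩
  exact ⟨u, h6.le.trans h7, h8⟩

end Pool.Agent.Results.MP_6c8efb_pr.LocalCutPoints
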