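import Pool.Agent.H980R2.Cont.Main
import Pool.Agent.H980R2.Cont.Mom

set_option autoImplicit false

/-!
# The flat end of a half-infinite strip: exact law and scaling limit of the number of contacts

Critical bond percolation (`p = 1/2`) on `ℤ²` in the half-infinite strip `0 ≤ u - v ≤ L`,
`u + v ≤ 1` (a strip of width `L` of the lattice rotated by 45 degrees, with a flat end), `L` odd.
`N` is the number of vertices of the flat end, not on the right side, which are joined to the right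
side of the strip by an open path of the strip; `0 ≤ N ≤ (L - 1) / 2`.  The theorem gives the exact
law of `N`, and proves that `N / L ^ (2/3)` converges in law, with all its moments, to the
law with the density `exp (- x ^ 3) / Γ(4/3)` on `x ≥ 0`.
-/

namespace Pool.Agent.Results.MP_6c8efb_pr.StripEndContacts

open MeasureTheory Filter Topology

/-- Edges of `ℤ²`: `(u,v,false)` joins `(u,v)` and `(u+1,v)`; `(u,v,true)` joins `(u,v)` and
`(u,v+1)`. -/
abbrev Edge := ℤ × ℤ × Bool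

/-- Configurations (`true` = open). -/
abbrev Conf := Edge → Bool

/-- `a` and `b` are joined by an open edge. -/
def OpenAdj (ω : Conf) (a b : ℤ × ℤ) : Prop :=
  (b = (a.1 + 1, a.2) ∧ ω (a.1, a.2, false) = true) ∨
  (a = (b.1 + 1, b.2) ∧ ω (b.1, b.2, false) = true) ∨
  (b = (a.1, a.2 + 1) ∧ ω (a.1, a.2, true) = true) ∨
  (a = (b.1, b.2 + 1) ∧ ω (b.1, b.2, true) = true)

/-- Critical bond percolation: every edge is open with probability `1/2`, independently. -/
noncomputable def perc : Measure Conf :=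
  Measure.infinitePi (fun _ : Edge => (PMF.uniformOfFintype Bool).toMeasure)

/-- The half-infinite strip `0 ≤ u - v ≤ L`, `u + v ≤ 1`. -/
def InStrip (L : ℕ) (x : ℤ × ℤ) : Prop := 0 ≤ x.1 - x.2 ∧ x.1 - x.2 ≤ L ∧ x.1 + x.2 ≤ 1

/-- Open path of the half-infinite strip. -/
def Joined (L : ℕ) (ω : Conf) : ℤ × ℤ → ℤ × ℤ → Prop :=
  Relation.ReflTransGen (fun a b => OpenAdj ω a b ∧ InStrip L a ∧ InStrip L b)

/-- The vertices of the flat end, not on the right side, joined to the right side `u - v = L`. -/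
def touch (L : ℕ) (ω : Conf) : Set (ℤ × ℤ) :=
  {x | x.1 + x.2 = 1 ∧ 0 ≤ x.1 - x.2 ∧ x.1 - x.2 < (L : ℤ) ∧
    ∃ y : ℤ × ℤ, y.1 - y.2 = (L : ℤ) ∧ Joined L ω x y}

/-- The weights of the exact law. -/
noncomputable def dl (n s : ℕ) : ℝ :=
  (s : ℝ) * (s + 1) * ∏ i ∈ Finset.Icc 1 (s - 1),
    (2 * (2 * (n : ℝ) + 2 * i + 3) * ((n : ℝ) - i)) / ((2 * (n : ℝ) - i - 1) * (2 * n + i + 4))

/-- Tails of the weights. -/
noncomputable def tl (n k : ℕ) : ℝ := ∑ s ∈ Finset.Icc k n, dl n s

/-- **Contacts of the flat end of a half-infinite strip with its right side.**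
(1) the exact law for the width `L = 2 n + 1`; (2) the limit law; (3) convergence of all moments. -/
theorem result :
    (∀ n : ℕ, 1 ≤ n → ∀ k : ℕ, k ≤ n →
      perc.real {ω | (touch (2 * n + 1) ω).ncard = k} =
        tl n k / ∑ j ∈ Finset.range (n + 1), tl n j) ∧
    (∀ t : ℝ, 0 ≤ t → Tendsto (fun n : ℕ => perc.real {ω |
        (((touch (2 * n + 1) ω).ncard : ℕ) : ℝ) ≤ t * (2 * (n : ℝ) + 1) ^ ((2 : ℝ) / 3)}) atTop
      (𝓝 ((∫ x in (0 : ℝ)..t, Real.exp (-x ^ 3)) / Real.Gamma (4 / 3)))) ∧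
    (∀ m : ℕ, Tendsto (fun n : ℕ =>
        ∫ ω, (((touch (2 * n + 1) ω).ncard : ℝ) / (2 * (n : ℝ) + 1) ^ ((2 : ℝ) / 3)) ^ m ∂perc) atTop
      (𝓝 (Real.Gamma (((m : ℝ) + 1) / 3) / Real.Gamma (1 / 3)))) :=
  ⟨fun n hn k hk => Pool.Agent.H980R2.Cont.main n hn k hk,
    fun t ht => Pool.Agent.H980R2.Cont.limit_law t ht,
    fun m => Pool.Agent.H980R2.Cont.moments m⟩

end Pool.Agent.Results.MP_6c8efb_pr.StripEndContacts
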